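import Pool.Agent.H88.LpDyn
import Pool.Agent.H88.LpDynDefs

set_option autoImplicit false

namespace Pool.Agent.Results.MP_6ee6b4_an.Nowhere

open Pool.Agent.H88.LpDyn Filter Topology

lemma aux :
    ∃ T : lp (fun _ : ℕ => ℂ) 2 →L[ℂ] lp (fun _ : ℕ => ℂ) 2,
      ∃ G : Set (lp (fun _ : ℕ => ℂ) 2),
        G = {x | x ≠ 0 ∧ ∀ y : lp (fun _ : ℕ => ℂ) 2,
              (∃ p : Polynomial ℂ, p.coeff 0 = 0 ∧ ∀ k, y k = p.eval (x k)) → y ≠ 0 →
              Dense (Set.range fun n : ℕ => (T ^ n) y)} ∧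
        G.Nonempty ∧ IsNowhereDense G := by
  obtain ⟨R, hR⟩ : ∃ R : E →L[ℂ] E, R = (lp.evalCLM ℂ (fun _ : ℕ => ℂ) 2 0).smulRight ee :=
    ⟨_, rfl⟩
  have hRa : ∀ x : E, R x = x 0 • ee := fun x => by rw [hR]; rfl
  have hRR : R * R = 0 := by
    ext1 x
    rw [mul_apply_eq_comp, hRa, hRa]
    simp [ee_apply]
  have h1 : (1 + R) * (1 - R) = 1 := by noncomm_ring [hRR]
  have h2 : (1 - R) * (1 + R) = 1 := by noncomm_ring [hRR]
  have hpow : ∀ n : ℕ, ((1 - R) * B2 * (1 + R)) ^ n = (1 - R) * B2 ^ n * (1 + R) := by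
    intro n
    induction n with
    | zero => simp [h2]
    | succ n ih =>
      rw [pow_succ, ih, pow_succ]
      calc (1 - R) * B2 ^ n * (1 + R) * ((1 - R) * B2 * (1 + R))
          = (1 - R) * B2 ^ n * ((1 + R) * (1 - R)) * B2 * (1 + R) := by noncomm_ring
        _ = _ := by rw [h1]; noncomm_ring
  have hsurj : ∀ S S' : E →L[ℂ] E, S * S' = 1 → DenseRange S := fun S S' h =>
    Function.Surjective.denseRange fun x => ⟨S' x, by rw [← mul_apply_eq_comp, h]; rfl⟩
  have hiff : ∀ y : E, Dense (Set.range fun n : ℕ => (((1 - R) * B2 * (1 + R)) ^ n) y) ↔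
      Dense (Set.range fun n : ℕ => (B2 ^ n) ((1 + R) y)) := by
    intro y
    constructor
    · intro h
      have := (hsurj _ _ h1).comp h (1 + R).continuous
      refine Dense.mono ?_ this
      rintro _ ⟨n, rfl⟩
      refine ⟨n, Eq.symm ?_⟩
      beta_reduce
      rw [Function.comp_apply, hpow, ← mul_apply_eq_comp, ← mul_apply_eq_comp, ← mul_assoc,
        ← mul_assoc, h1, one_mul]
    · intro h
      have := (hsurj _ _ h2).comp h (1 - R).continuous
      refine Dense.mono ?_ this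
      rintro _ ⟨n, rfl⟩
      refine ⟨n, ?_⟩
      beta_reduce
      rw [Function.comp_apply, hpow]; rfl
  refine ⟨(1 - R) * B2 * (1 + R), _, rfl, ?_, ?_⟩
  · obtain ⟨u, hu⟩ := exists_gen
    obtain ⟨x, hx⟩ : ∃ x : E, x = u - lp.single 2 0 (u 0) := ⟨_, rfl⟩
    have hx0 : x 0 = 0 := by rw [hx]; simp
    have hxs : ∀ k, x (k + 1) = u (k + 1) := fun k => by rw [hx]; simp
    have key : ∀ (y : E) (p : Polynomial ℂ), p ≠ 0 → p.coeff 0 = 0 → (∀ k, y k = p.eval (x k)) →
        Dense (Set.range fun n : ℕ => (B2 ^ n) y) := by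
      intro y p hp hp0 hy
      have hd : 0 < p.natDegree := by
        by_contra h
        have h' : p.natDegree = 0 := by omega
        rw [Polynomial.eq_C_of_natDegree_eq_zero h', hp0] at hp
        simp at hp
      have := dense_tail (hu p.natDegree (fun j => p.coeff (j + 1)) ⟨p.natDegree - 1, by omega, by
        rw [Nat.sub_add_cancel hd]; exact Polynomial.leadingCoeff_ne_zero.2 hp⟩) 1
      refine this.mono ?_
      rintro _ ⟨n, rfl⟩
      refine ⟨n + 1, ?_⟩
      ext k
      rw [B2_iter, B2_iter, hy, ← add_assoc, hxs, Polynomial.eval_eq_sum_range,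
        Finset.sum_range_succ', hp0, lp.coeFn_sum, Finset.sum_apply]
      simp
    refine ⟨x, fun h => ?_, ?_⟩
    · have hd := key x Polynomial.X Polynomial.X_ne_zero (by simp) (by simp)
      have : Set.range (fun n : ℕ => (B2 ^ n) x) ⊆ {0} := by
        rintro _ ⟨n, rfl⟩; simp [h]
      have hd2 := (hd.mono this).sdiff_singleton 0
      simpa using hd2.nonempty
    · rintro y ⟨p, hp0, hy⟩ hy0
      have hp : p ≠ 0 := by
        rintro rfl
        exact hy0 (by ext k; simp [hy])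
      rw [hiff]
      have : (1 + R) y = y := by
        rw [add_apply, hRa, hy, hx0, ← Polynomial.coeff_zero_eq_eval_zero, hp0]
        simp
      rw [this]
      exact key y p hp hp0 hy
  · have hK : IsClosed ((lp.evalCLM ℂ (fun _ : ℕ => ℂ) 2 0).ker : Set E) :=
      ContinuousLinearMap.isClosed_ker _
    refine IsNowhereDense.mono (s := ((lp.evalCLM ℂ (fun _ : ℕ => ℂ) 2 0).ker : Set E)) ?_ ?_
    · rintro x ⟨-, hx⟩
      show x 0 = 0
      by_contra h0
      have hy0 : pw x 1 ≠ 0 := fun h => h0 (by simpa using congrArg (fun z : E => z 0) h)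
      have := hx (pw x 1) ⟨Polynomial.X ^ 2, by simp, by simp⟩ hy0
      rw [hiff] at this
      refine not_dense x _ (x 0 ^ 2) (pow_ne_zero 2 h0) (fun k => ?_) this
      rw [add_apply, hRa]
      simp
    · rw [hK.isNowhereDense_iff]
      by_contra h
      have := Submodule.eq_top_of_nonempty_interior' _ (Set.nonempty_iff_ne_empty.2 h)
      have h3 : (lp.single 2 0 1 : E) ∈ (lp.evalCLM ℂ (fun _ : ℕ => ℂ) 2 0).ker := by
        rw [this]; trivial
      have h4 : (lp.single 2 0 (1 : ℂ) : E) 0 = 0 := h3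
      simp at h4

open Pool.Agent.H88.LpDynDefs in
theorem result : ∃ T : Op, (Gen T).Nonempty ∧ IsNowhereDense (Gen T) := by
  obtain ⟨T, G, hG, h1, h2⟩ := aux
  have : Gen T = G := by
    rw [hG]
    ext x
    simp only [Gen, Alg, IsHC, Set.mem_ofPred_eq, FunLike.coe_pow_eq_iterate]
  exact ⟨T, this ▸ h1, this ▸ h2⟩

end Pool.Agent.Results.MP_6ee6b4_an.Nowhere
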